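import Mathlib

/-!
# Bouncing robots on a circle (MP_6a9d64_co): the model

`n` robots move at speed one on the circle `ℝ / ℤ`.  Everything is written in the universal cover
`ℝ`: the robots are indexed by `ℤ`, the robots `k` and `k + n` being the same robot seen one full
turn further, so `X (k + n) t = X k t + 1`.
-/

namespace Pool.Agent.R690.Rob

/-- robot `k` is at its home base (a point of the circle) at time `t` -/
def AtHome (H : ℤ → ℝ) (X : ℤ → ℝ → ℝ) (k : ℤ) (t : ℝ) : Prop :=
  ∃ z : ℤ, X k t = H k + z

/-- robot `k` did not return to its home base during `(0, t)`: it is still there just before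
time `t` -/
def Present (H : ℤ → ℝ) (X : ℤ → ℝ → ℝ) (k : ℤ) (t : ℝ) : Prop :=
  ∀ s, 0 < s → s < t → ¬ AtHome H X k s

/-- robot `k` did not return to its home base during `(0, t]`: it is still alive (just) after
time `t` -/
def Alive (H : ℤ → ℝ) (X : ℤ → ℝ → ℝ) (k : ℤ) (t : ℝ) : Prop :=
  ∀ s, 0 < s → s ≤ t → ¬ AtHome H X k s

/-- An evolution of `n` bouncing robots on the circle `ℝ / ℤ`. -/
structure Evolution (n : ℕ) where
  /-- home bases -/
  H : ℤ → ℝ
  /-- initial directions: `1` is counterclockwise, `-1` is clockwise -/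
  D : ℤ → ℝ
  /-- position at time `t` -/
  X : ℤ → ℝ → ℝ
  /-- velocity immediately before time `t` -/
  W : ℤ → ℝ → ℝ
  /-- velocity immediately after time `t` -/
  V : ℤ → ℝ → ℝ
  H_mono : StrictMono H
  H_per : ∀ k, H (k + n) = H k + 1
  D_pm : ∀ k, D k = 1 ∨ D k = -1
  D_per : ∀ k, D (k + n) = D k
  X_per : ∀ k t, X (k + n) t = X k t + 1
  W_per : ∀ k t, W (k + n) t = W k t
  V_per : ∀ k t, V (k + n) t = V k t
  /-- at time `0` every robot is at its home base and leaves in its initial direction -/
  X_zero : ∀ k, X k 0 = H k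
  V_zero : ∀ k, V k 0 = D k
  /-- a living robot always has speed one, and moves with constant velocity for some time after
  every moment ... -/
  V_pm : ∀ k t, 0 ≤ t → Alive H X k t → V k t = 1 ∨ V k t = -1
  after : ∀ k t, 0 ≤ t → Alive H X k t →
    ∃ ε : ℝ, 0 < ε ∧ ∀ s, t ≤ s → s < t + ε → X k s = X k t + V k t * (s - t)
  /-- ... and for some time before every moment -/
  W_pm : ∀ k t, 0 < t → Present H X k t → W k t = 1 ∨ W k t = -1
  before : ∀ k t, 0 < t → Present H X k t →
    ∃ ε : ℝ, 0 < ε ∧ ∀ s, 0 ≤ s → t - ε < s → s ≤ t → X k s = X k t + W k t * (s - t)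
  /-- a living robot which does not meet another living robot keeps its velocity (a robot that
  reaches its home base at time `t` is not alive at time `t`: it dies and does not interact) -/
  free : ∀ k t, 0 < t → Alive H X k t → (∀ l, l ≠ k → Alive H X l t → X l t ≠ X k t) →
    V k t = W k t
  /-- two living robots which meet exchange their velocities -/
  collide : ∀ k l t, 0 < t → k ≠ l → Alive H X k t → Alive H X l t → X k t = X l t →
    V k t = W l t
  /-- no collision of three or more robots -/
  no_triple : ∀ k l j t, 0 < t → k ≠ l → l ≠ j → k ≠ j →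
    Present H X k t → Present H X l t → Present H X j t → ¬ (X k t = X l t ∧ X l t = X j t)

/-- the number of surviving robots -/
noncomputable def Evolution.survivors {n : ℕ} (E : Evolution n) : ℕ :=
  Set.ncard {k : ℤ | 0 ≤ k ∧ k < n ∧ ∀ t : ℝ, 0 < t → ¬ AtHome E.H E.X k t}

end Pool.Agent.R690.Rob
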