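import Mathlib

/-!
# Order statistics of free lines solve the elastic dynamics

`a b : ℤ → ℝ` are strictly increasing.  There are two families of free lines, the lines
`a i + t` and the lines `b j - t`.  `c a b k t` is the `k`-th order statistic of the positions at
time `t`.  It moves along the lines, and two order statistics which meet exchange velocities.
-/

set_option autoImplicit false

namespace Pool.Agent.R690.Rob.OS

/-- the hypotheses on the two families -/
structure Gh (a b : ℤ → ℝ) : Prop where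
  sa : StrictMono a
  sb : StrictMono b
  up : ∀ M : ℝ, ∃ i, M < a i
  dn : ∀ M : ℝ, ∃ i, a i < M

/-- the index `i` cuts at level `k` -/
def Cut (a b : ℤ → ℝ) (k : ℤ) (t : ℝ) (i : ℤ) : Prop :=
  a i + t ≤ b (k - i) - t ∧ b (k - i - 1) - t < a (i + 1) + t

/-- the cutting index -/
noncomputable def ist (a b : ℤ → ℝ) (k : ℤ) (t : ℝ) : ℤ := Classical.epsilon (Cut a b k t)

/-- the `k`-th order statistic at time `t` -/
noncomputable def c (a b : ℤ → ℝ) (k : ℤ) (t : ℝ) : ℝ :=
  max (a (ist a b k t) + t) (b (k - ist a b k t - 1) - t)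

/-- carrier after `t`, a line `a i + t` -/
def RP (a b : ℤ → ℝ) (k : ℤ) (t : ℝ) (i : ℤ) : Prop :=
  b (k - i - 1) - t ≤ a i + t ∧ a i + t < b (k - i) - t

/-- carrier after `t`, a line `b j - t` -/
def RM (a b : ℤ → ℝ) (k : ℤ) (t : ℝ) (j : ℤ) : Prop :=
  a (k - j - 1) + t < b j - t ∧ b j - t ≤ a (k - j) + t

/-- carrier before `t`, a line `a i + t` -/
def LP (a b : ℤ → ℝ) (k : ℤ) (t : ℝ) (i : ℤ) : Prop :=
  b (k - i - 1) - t < a i + t ∧ a i + t ≤ b (k - i) - t

/-- carrier before `t`, a line `b j - t` -/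
def LM (a b : ℤ → ℝ) (k : ℤ) (t : ℝ) (j : ℤ) : Prop :=
  a (k - j - 1) + t ≤ b j - t ∧ b j - t < a (k - j) + t

open Classical in
/-- velocity after `t` -/
noncomputable def V (a b : ℤ → ℝ) (k : ℤ) (t : ℝ) : ℝ := if ∃ i, RP a b k t i then 1 else -1

open Classical in
/-- velocity before `t` -/
noncomputable def W (a b : ℤ → ℝ) (k : ℤ) (t : ℝ) : ℝ := if ∃ i, LP a b k t i then 1 else -1

variable {a b : ℤ → ℝ}

theorem V_pm (k : ℤ) (t : ℝ) : V a b k t = 1 ∨ V a b k t = -1 := by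
  unfold V; split_ifs <;> simp

theorem W_pm (k : ℤ) (t : ℝ) : W a b k t = 1 ∨ W a b k t = -1 := by
  unfold W; split_ifs <;> simp

theorem last_aux (P : ℤ → Prop) (hmono : ∀ i j, i ≤ j → P j → P i) (h1 : ∃ i, P i)
    (h2 : ∃ i, ¬ P i) : ∃ i, P i ∧ ¬ P (i + 1) := by
  obtain ⟨i0, hi0⟩ := h1
  obtain ⟨j0, hj0⟩ := h2
  have hlt : ∀ i, P i → i ≤ j0 := by
    intro i hi
    by_contra hc
    exact hj0 (hmono _ _ (by omega) hi)
  obtain ⟨m, hm, hmax⟩ := Int.exists_greatest_of_bdd ⟨j0, hlt⟩ ⟨i0, hi0⟩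
  refine ⟨m, hm, fun hc => ?_⟩
  have := hmax _ hc
  omega

theorem below (g : Gh a b) (k : ℤ) (M : ℝ) : ∃ i, a i + M < b (k - i) - M := by
  obtain ⟨i, hi⟩ := g.dn (b k - M - M)
  refine ⟨min i 0, ?_⟩
  have h1 : a (min i 0) ≤ a i := g.sa.monotone (min_le_left _ _)
  have h2 : b k ≤ b (k - min i 0) := g.sb.monotone (by have := min_le_right i 0; omega)
  linarith

theorem above (g : Gh a b) (k : ℤ) (M : ℝ) : ∃ i, b (k - i) - M < a i + M := by
  obtain ⟨i, hi⟩ := g.up (b k - M - M)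
  refine ⟨max i 0, ?_⟩
  have h1 : a i ≤ a (max i 0) := g.sa.monotone (le_max_left _ _)
  have h2 : b (k - max i 0) ≤ b k := g.sb.monotone (by have := le_max_right i 0; omega)
  linarith

theorem anti (g : Gh a b) (k : ℤ) {i j : ℤ} (hij : i ≤ j) : b (k - j) ≤ b (k - i) :=
  g.sb.monotone (by omega)

/-- there is a cutting index -/
theorem exists_cut (g : Gh a b) (k : ℤ) (t : ℝ) : ∃ i, Cut a b k t i := by
  obtain ⟨i, h1, h2⟩ := last_aux (fun i => a i + t ≤ b (k - i) - t) (by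
    intro i j hij hj
    have h1 := g.sa.monotone hij
    have h2 := anti g k hij
    show a i + t ≤ b (k - i) - t
    have h3 : a j + t ≤ b (k - j) - t := hj
    linarith)
    (by obtain ⟨i, hi⟩ := below g k t; exact ⟨i, hi.le⟩)
    (by obtain ⟨i, hi⟩ := above g k t; exact ⟨i, not_le.2 hi⟩)
  refine ⟨i, h1, ?_⟩
  have h3 : b (k - (i + 1)) - t < a (i + 1) + t := not_le.1 h2
  rwa [show k - (i + 1) = k - i - 1 by ring] at h3

theorem ist_cut (g : Gh a b) (k : ℤ) (t : ℝ) : Cut a b k t (ist a b k t) :=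
  Classical.epsilon_spec (exists_cut g k t)

/-- (1), lower bound -/
theorem le_c (g : Gh a b) (k : ℤ) (t : ℝ) (i : ℤ) : min (a i + t) (b (k - i) - t) ≤ c a b k t := by
  unfold c
  rcases le_or_gt i (ist a b k t) with h | h
  · refine (min_le_left _ _).trans (le_max_of_le_left ?_)
    linarith [g.sa.monotone h]
  · refine (min_le_right _ _).trans (le_max_of_le_right ?_)
    have h2 : b (k - i) ≤ b (k - ist a b k t - 1) := g.sb.monotone (by omega)
    linarith

/-- (1), upper bound -/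
theorem c_le (g : Gh a b) (k : ℤ) (t : ℝ) (i : ℤ) :
    c a b k t ≤ max (a i + t) (b (k - i - 1) - t) := by
  obtain ⟨h1, h2⟩ := ist_cut g k t
  unfold c
  rcases lt_trichotomy i (ist a b k t) with h | h | h
  · refine le_max_of_le_right (max_le ?_ ?_)
    · have h3 : b (k - ist a b k t) ≤ b (k - i - 1) := g.sb.monotone (by omega)
      linarith
    · have h3 : b (k - ist a b k t - 1) ≤ b (k - i - 1) := g.sb.monotone (by omega)
      linarith
  · rw [h]
  · refine le_max_of_le_left (max_le ?_ ?_)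
    · linarith [g.sa.monotone h.le]
    · have h3 : a (ist a b k t + 1) ≤ a i := g.sa.monotone (by omega)
      linarith

/-- lower bound, second form -/
theorem le_c' (g : Gh a b) {k : ℤ} {t y : ℝ} (i : ℤ) (h1 : y ≤ a i + t) (h2 : y ≤ b (k - i) - t) :
    y ≤ c a b k t := (le_min h1 h2).trans (le_c g k t i)

theorem lt_c' (g : Gh a b) {k : ℤ} {t y : ℝ} (i : ℤ) (h1 : y < a i + t) (h2 : y < b (k - i) - t) :
    y < c a b k t := (lt_min h1 h2).trans_le (le_c g k t i)

theorem c_le' (g : Gh a b) {k : ℤ} {t y : ℝ} (i : ℤ) (h1 : a i + t ≤ y)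
    (h2 : b (k - i - 1) - t ≤ y) : c a b k t ≤ y := (c_le g k t i).trans (max_le h1 h2)

theorem c_lt' (g : Gh a b) {k : ℤ} {t y : ℝ} (i : ℤ) (h1 : a i + t < y)
    (h2 : b (k - i - 1) - t < y) : c a b k t < y := (c_le g k t i).trans_lt (max_lt h1 h2)

/-- (2), lines `a i + t` -/
theorem c_eq_a (g : Gh a b) {k : ℤ} {t : ℝ} {i : ℤ} (h1 : b (k - i - 1) - t ≤ a i + t)
    (h2 : a i + t ≤ b (k - i) - t) : c a b k t = a i + t :=
  le_antisymm (c_le' g i le_rfl h1) (le_c' g i le_rfl h2)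

/-- (2), lines `b j - t` -/
theorem c_eq_b (g : Gh a b) {k : ℤ} {t : ℝ} {j : ℤ} (h1 : a (k - j - 1) + t ≤ b j - t)
    (h2 : b j - t ≤ a (k - j) + t) : c a b k t = b j - t := by
  refine le_antisymm (c_le' g (k - j - 1) h1 ?_) (le_c' g (k - j) h2 ?_)
  · rw [show k - (k - j - 1) - 1 = j by ring]
  · rw [show k - (k - j) = j by ring]

theorem c_RP (g : Gh a b) {k : ℤ} {t : ℝ} {i : ℤ} (h : RP a b k t i) : c a b k t = a i + t :=
  c_eq_a g h.1 h.2.le

theorem c_LP (g : Gh a b) {k : ℤ} {t : ℝ} {i : ℤ} (h : LP a b k t i) : c a b k t = a i + t :=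
  c_eq_a g h.1.le h.2

theorem c_RM (g : Gh a b) {k : ℤ} {t : ℝ} {j : ℤ} (h : RM a b k t j) : c a b k t = b j - t :=
  c_eq_b g h.1.le h.2

theorem c_LM (g : Gh a b) {k : ℤ} {t : ℝ} {j : ℤ} (h : LM a b k t j) : c a b k t = b j - t :=
  c_eq_b g h.1 h.2.le

/-- (3) after `t` -/
theorem RP_or_RM (g : Gh a b) (k : ℤ) (t : ℝ) : (∃ i, RP a b k t i) ∨ ∃ j, RM a b k t j := by
  obtain ⟨i, h1, h2⟩ := last_aux (fun i => a i + t < b (k - i) - t) (by
    intro i j hij hj
    have h1 := g.sa.monotone hij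
    have h2 := anti g k hij
    show a i + t < b (k - i) - t
    have h3 : a j + t < b (k - j) - t := hj
    linarith)
    (below g k t)
    (by obtain ⟨i, hi⟩ := above g k t; exact ⟨i, not_lt.2 hi.le⟩)
  have h3 : b (k - (i + 1)) - t ≤ a (i + 1) + t := not_lt.1 h2
  rcases le_or_gt (b (k - i - 1) - t) (a i + t) with h | h
  · exact Or.inl ⟨i, h, h1⟩
  · refine Or.inr ⟨k - i - 1, ?_, ?_⟩
    · rwa [show k - (k - i - 1) - 1 = i by ring]
    · rw [show k - (k - i - 1) = i + 1 by ring]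
      rwa [show k - (i + 1) = k - i - 1 by ring] at h3

/-- (3) before `t` -/
theorem LP_or_LM (g : Gh a b) (k : ℤ) (t : ℝ) : (∃ i, LP a b k t i) ∨ ∃ j, LM a b k t j := by
  obtain ⟨i, h1, h2⟩ := exists_cut g k t
  rcases lt_or_ge (b (k - i - 1) - t) (a i + t) with h | h
  · exact Or.inl ⟨i, h, h1⟩
  · refine Or.inr ⟨k - i - 1, ?_, ?_⟩
    · rwa [show k - (k - i - 1) - 1 = i by ring]
    · rwa [show k - (k - i - 1) = i + 1 by ring]

theorem not_RP_RM (g : Gh a b) {k : ℤ} {t : ℝ} {i j : ℤ} (h : RP a b k t i)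
    (h' : RM a b k t j) : False := by
  obtain ⟨h1, h2⟩ := h
  obtain ⟨h3, h4⟩ := h'
  rcases lt_or_ge (k - j - 1) i with hc | hc
  · -- `i ≥ k - j`
    have h5 : b (k - i) ≤ b j := g.sb.monotone (by omega)
    have h6 : a (k - j) ≤ a i := g.sa.monotone (by omega)
    linarith
  · have h5 : b j ≤ b (k - i - 1) := g.sb.monotone (by omega)
    have h6 : a i ≤ a (k - j - 1) := g.sa.monotone (by omega)
    linarith

theorem not_LP_LM (g : Gh a b) {k : ℤ} {t : ℝ} {i j : ℤ} (h : LP a b k t i)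
    (h' : LM a b k t j) : False := by
  obtain ⟨h1, h2⟩ := h
  obtain ⟨h3, h4⟩ := h'
  rcases lt_or_ge (k - j - 1) i with hc | hc
  · have h5 : b (k - i) ≤ b j := g.sb.monotone (by omega)
    have h6 : a (k - j) ≤ a i := g.sa.monotone (by omega)
    linarith
  · have h5 : b j ≤ b (k - i - 1) := g.sb.monotone (by omega)
    have h6 : a i ≤ a (k - j - 1) := g.sa.monotone (by omega)
    linarith

theorem V_RP {k : ℤ} {t : ℝ} {i : ℤ} (h : RP a b k t i) : V a b k t = 1 := by
  unfold V; rw [if_pos ⟨i, h⟩]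

theorem W_LP {k : ℤ} {t : ℝ} {i : ℤ} (h : LP a b k t i) : W a b k t = 1 := by
  unfold W; rw [if_pos ⟨i, h⟩]

theorem V_RM (g : Gh a b) {k : ℤ} {t : ℝ} {j : ℤ} (h : RM a b k t j) : V a b k t = -1 := by
  unfold V; rw [if_neg]
  rintro ⟨i, hi⟩
  exact not_RP_RM g hi h

theorem W_LM (g : Gh a b) {k : ℤ} {t : ℝ} {j : ℤ} (h : LM a b k t j) : W a b k t = -1 := by
  unfold W; rw [if_neg]
  rintro ⟨i, hi⟩
  exact not_LP_LM g hi h

/-- (4) after `t` -/
theorem after (g : Gh a b) (k : ℤ) (t : ℝ) :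
    ∃ ε : ℝ, 0 < ε ∧ ∀ s, t ≤ s → s < t + ε → c a b k s = c a b k t + V a b k t * (s - t) := by
  rcases RP_or_RM g k t with ⟨i, h⟩ | ⟨j, h⟩
  · refine ⟨(b (k - i) - t - (a i + t)) / 2, by linarith [h.2], fun s hs1 hs2 => ?_⟩
    rw [V_RP h, c_RP g h, c_eq_a g (i := i) (by linarith [h.1]) (by linarith [h.2])]
    ring
  · refine ⟨(b j - t - (a (k - j - 1) + t)) / 2, by linarith [h.1], fun s hs1 hs2 => ?_⟩
    rw [V_RM g h, c_RM g h, c_eq_b g (j := j) (by linarith [h.1]) (by linarith [h.2])]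
    ring

/-- (4) before `t` -/
theorem before (g : Gh a b) (k : ℤ) (t : ℝ) :
    ∃ ε : ℝ, 0 < ε ∧ ∀ s, t - ε < s → s ≤ t → c a b k s = c a b k t + W a b k t * (s - t) := by
  rcases LP_or_LM g k t with ⟨i, h⟩ | ⟨j, h⟩
  · refine ⟨(a i + t - (b (k - i - 1) - t)) / 2, by linarith [h.1], fun s hs1 hs2 => ?_⟩
    rw [W_LP h, c_LP g h, c_eq_a g (i := i) (by linarith [h.1]) (by linarith [h.2])]
    ring
  · refine ⟨(a (k - j) + t - (b j - t)) / 2, by linarith [h.2], fun s hs1 hs2 => ?_⟩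
    rw [W_LM g h, c_LM g h, c_eq_b g (j := j) (by linarith [h.1]) (by linarith [h.2])]
    ring

/-- (6) -/
theorem meet (g : Gh a b) {k l : ℤ} {t : ℝ} (hkl : k < l) (h : c a b k t = c a b l t) :
    W a b k t = 1 ∧ V a b k t = -1 ∧ W a b l t = -1 ∧ V a b l t = 1 := by
  refine ⟨?_, ?_, ?_, ?_⟩
  · rcases LP_or_LM g k t with ⟨i, h'⟩ | ⟨j, h'⟩
    · exact W_LP h'
    · exfalso
      have h1 := c_LM g h'
      have h2 : b j - t < c a b l t := by
        refine lt_c' g (k - j) h'.2 ?_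
        have : b j < b (l - (k - j)) := g.sb (by omega)
        linarith
      linarith
  · rcases RP_or_RM g k t with ⟨i, h'⟩ | ⟨j, h'⟩
    · exfalso
      have h1 := c_RP g h'
      have h2 : a i + t < c a b l t := by
        refine lt_c' g (i + 1) ?_ ?_
        · have : a i < a (i + 1) := g.sa (by omega)
          linarith
        · have h3 : b (k - i) ≤ b (l - (i + 1)) := g.sb.monotone (by omega)
          linarith [h'.2]
      linarith
    · exact V_RM g h'
  · rcases LP_or_LM g l t with ⟨i, h'⟩ | ⟨j, h'⟩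
    · exfalso
      have h1 := c_LP g h'
      have h2 : c a b k t < a i + t := by
        refine c_lt' g (i - 1) ?_ ?_
        · have : a (i - 1) < a i := g.sa (by omega)
          linarith
        · have h3 : b (k - (i - 1) - 1) ≤ b (l - i - 1) := g.sb.monotone (by omega)
          linarith [h'.1]
      linarith
    · exact W_LM g h'
  · rcases RP_or_RM g l t with ⟨i, h'⟩ | ⟨j, h'⟩
    · exact V_RP h'
    · exfalso
      have h1 := c_RM g h'
      have h2 : c a b k t < b j - t := by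
        refine c_lt' g (l - j - 1) h'.1 ?_
        have : b (k - (l - j - 1) - 1) < b j := g.sb (by omega)
        linarith
      linarith

theorem strict_or_meet (g : Gh a b) {k l : ℤ} (hkl : k < l) (t : ℝ) : c a b k t ≤ c a b l t := by
  obtain ⟨h1, h2⟩ := ist_cut g k t
  refine max_le ?_ ?_
  · refine le_c' g (ist a b k t) le_rfl ?_
    have h3 : b (k - ist a b k t) ≤ b (l - ist a b k t) := g.sb.monotone (by omega)
    linarith
  · refine le_c' g (ist a b k t + 1) h2.le ?_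
    have h3 : b (k - ist a b k t - 1) ≤ b (l - (ist a b k t + 1)) := g.sb.monotone (by omega)
    linarith

theorem c_mono (g : Gh a b) (t : ℝ) : Monotone fun k => c a b k t := by
  intro k l hkl
  rcases hkl.lt_or_eq with h | h
  · exact strict_or_meet g h t
  · rw [h]

/-- (6), exchange of velocities -/
theorem collide (g : Gh a b) {k l : ℤ} {t : ℝ} (hkl : k ≠ l) (h : c a b k t = c a b l t) :
    V a b k t = W a b l t := by
  rcases lt_or_gt_of_ne hkl with hc | hc
  · obtain ⟨-, h2, h3, -⟩ := meet g hc h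
    rw [h2, h3]
  · obtain ⟨h1, -, -, h4⟩ := meet g hc h.symm
    rw [h1, h4]

/-- (6), no triple collisions -/
theorem no_triple (g : Gh a b) {k l j : ℤ} {t : ℝ} (h1 : k ≠ l) (h2 : l ≠ j) (h3 : k ≠ j) :
    ¬ (c a b k t = c a b l t ∧ c a b l t = c a b j t) := by
  rintro ⟨h4, h5⟩
  have key : ∀ x y z : ℤ, x < y → y < z → c a b x t = c a b y t → c a b y t = c a b z t →
      False := by
    intro x y z hxy hyz e1 e2
    obtain ⟨-, -, h6, -⟩ := meet g hxy e1
    obtain ⟨h7, -, -, -⟩ := meet g hyz e2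
    rw [h6] at h7
    norm_num at h7
  have h6 := h4.trans h5
  rcases lt_or_gt_of_ne h1 with a1 | a1 <;> rcases lt_or_gt_of_ne h2 with a2 | a2 <;>
    rcases lt_or_gt_of_ne h3 with a3 | a3
  · exact key k l j a1 a2 h4 h5
  · omega
  · exact key k j l a3 a2 h6 h5.symm
  · exact key j k l a3 a1 h6.symm h4
  · exact key l k j a1 a3 h4.symm h6
  · exact key l j k a2 a3 h5 h6.symm
  · omega
  · exact key j l k a2 a1 h5.symm h4.symm

/-- (5) -/
theorem free (g : Gh a b) {k : ℤ} {t : ℝ} (h : ∀ l, l ≠ k → c a b l t ≠ c a b k t) :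
    V a b k t = W a b k t := by
  rcases RP_or_RM g k t with ⟨i, h'⟩ | ⟨j, h'⟩
  · rw [V_RP h']
    rcases h'.1.lt_or_eq with h1 | h1
    · rw [W_LP (i := i) ⟨h1, h'.2.le⟩]
    · exfalso
      refine h (k - 1) (by omega) ?_
      rw [c_RP g h']
      have h2 := anti g (k - 1) (show i ≤ i + 1 by omega)
      have h3 : b (k - 1 - i - 1) < b (k - i - 1) := g.sb (by omega)
      refine c_eq_a g (i := i) (by linarith) ?_
      rw [show k - 1 - i = k - i - 1 by ring, h1]
  · rw [V_RM g h']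
    rcases h'.2.lt_or_eq with h1 | h1
    · rw [W_LM g (j := j) ⟨h'.1.le, h1⟩]
    · exfalso
      refine h (k + 1) (by omega) ?_
      rw [c_RM g h']
      refine c_eq_b g (j := j) ?_ ?_
      · rw [show k + 1 - j - 1 = k - j by ring, h1]
      · have h3 : a (k - j) < a (k + 1 - j) := g.sa (by omega)
        linarith

theorem c_cut (g : Gh a b) {k : ℤ} {t : ℝ} {i : ℤ} (h : Cut a b k t i) :
    c a b k t = max (a i + t) (b (k - i - 1) - t) := by
  refine le_antisymm (c_le g k t i) (max_le (le_c' g i le_rfl h.1) (le_c' g (i + 1) h.2.le ?_))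
  rw [show k - (i + 1) = k - i - 1 by ring]

/-- periodicity of the positions -/
theorem c_per (g : Gh a b) {m N : ℤ} (ha : ∀ i, a (i + m) = a i + 1)
    (hb : ∀ i, b (i + N) = b i + 1) (k : ℤ) (t : ℝ) : c a b (k + (m + N)) t = c a b k t + 1 := by
  obtain ⟨i, hi⟩ := exists_cut g k t
  have e1 : ∀ x : ℤ, b (k + (m + N) - (i + m) - x) = b (k - i - x) + 1 := by
    intro x
    rw [← hb]
    congr 1
    ring
  have e0 : b (k + (m + N) - (i + m)) = b (k - i) + 1 := by
    have := e1 0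
    simpa using this
  have e2 : a (i + m + 1) = a (i + 1) + 1 := by
    rw [← ha]
    congr 1
    ring
  have hi' : Cut a b (k + (m + N)) t (i + m) := by
    constructor
    · rw [ha, e0]
      linarith [hi.1]
    · rw [e1, e2]
      linarith [hi.2]
  rw [c_cut g hi', c_cut g hi, e1, ha, ← max_add_add_right]
  congr 1 <;> ring

theorem RP_per {m N : ℤ} (ha : ∀ i, a (i + m) = a i + 1) (hb : ∀ i, b (i + N) = b i + 1)
    (k : ℤ) (t : ℝ) (i : ℤ) : RP a b (k + (m + N)) t (i + m) ↔ RP a b k t i := by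
  have e1 : b (k + (m + N) - (i + m) - 1) = b (k - i - 1) + 1 := by
    rw [← hb]; congr 1; ring
  have e0 : b (k + (m + N) - (i + m)) = b (k - i) + 1 := by
    rw [← hb]; congr 1; ring
  unfold RP
  rw [ha, e1, e0]
  constructor <;> rintro ⟨h1, h2⟩ <;> constructor <;> linarith

theorem LP_per {m N : ℤ} (ha : ∀ i, a (i + m) = a i + 1) (hb : ∀ i, b (i + N) = b i + 1)
    (k : ℤ) (t : ℝ) (i : ℤ) : LP a b (k + (m + N)) t (i + m) ↔ LP a b k t i := by
  have e1 : b (k + (m + N) - (i + m) - 1) = b (k - i - 1) + 1 := by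
    rw [← hb]; congr 1; ring
  have e0 : b (k + (m + N) - (i + m)) = b (k - i) + 1 := by
    rw [← hb]; congr 1; ring
  unfold LP
  rw [ha, e1, e0]
  constructor <;> rintro ⟨h1, h2⟩ <;> constructor <;> linarith

/-- periodicity of the velocities after `t` -/
theorem V_per {m N : ℤ} (ha : ∀ i, a (i + m) = a i + 1) (hb : ∀ i, b (i + N) = b i + 1)
    (k : ℤ) (t : ℝ) : V a b (k + (m + N)) t = V a b k t := by
  have : (∃ i, RP a b (k + (m + N)) t i) ↔ ∃ i, RP a b k t i := by
    constructor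
    · rintro ⟨i, hi⟩
      refine ⟨i - m, (RP_per ha hb k t _).1 ?_⟩
      rwa [sub_add_cancel]
    · rintro ⟨i, hi⟩
      exact ⟨i + m, (RP_per ha hb k t _).2 hi⟩
  unfold V
  by_cases h : ∃ i, RP a b k t i
  · rw [if_pos h, if_pos (this.2 h)]
  · rw [if_neg h, if_neg fun h' => h (this.1 h')]

/-- periodicity of the velocities before `t` -/
theorem W_per {m N : ℤ} (ha : ∀ i, a (i + m) = a i + 1) (hb : ∀ i, b (i + N) = b i + 1)
    (k : ℤ) (t : ℝ) : W a b (k + (m + N)) t = W a b k t := by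
  have : (∃ i, LP a b (k + (m + N)) t i) ↔ ∃ i, LP a b k t i := by
    constructor
    · rintro ⟨i, hi⟩
      refine ⟨i - m, (LP_per ha hb k t _).1 ?_⟩
      rwa [sub_add_cancel]
    · rintro ⟨i, hi⟩
      exact ⟨i + m, (LP_per ha hb k t _).2 hi⟩
  unfold W
  by_cases h : ∃ i, LP a b k t i
  · rw [if_pos h, if_pos (this.2 h)]
  · rw [if_neg h, if_neg fun h' => h (this.1 h')]

/-- bound of an order statistic for all times, from above -/
theorem exists_c_le (g : Gh a b) (k : ℤ) (t : ℝ) : ∃ i, c a b k t ≤ (a i + b (k - i)) / 2 := by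
  rcases RP_or_RM g k t with ⟨i, h⟩ | ⟨j, h⟩
  · exact ⟨i, by rw [c_RP g h]; linarith [h.2]⟩
  · refine ⟨k - j, ?_⟩
    rw [c_RM g h, show k - (k - j) = j by ring]
    linarith [h.2]

/-- bound of an order statistic for all times, from below -/
theorem exists_le_c (g : Gh a b) (k : ℤ) (t : ℝ) :
    ∃ i, (a i + b (k - i - 1)) / 2 ≤ c a b k t := by
  rcases RP_or_RM g k t with ⟨i, h⟩ | ⟨j, h⟩
  · exact ⟨i, by rw [c_RP g h]; linarith [h.1]⟩
  · refine ⟨k - j - 1, ?_⟩
    rw [c_RM g h, show k - (k - j - 1) - 1 = j by ring]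
    linarith [h.1]

/-- periodic strictly increasing families satisfy the hypotheses -/
theorem gh_of_per {m : ℤ} (sa : StrictMono a) (sb : StrictMono b)
    (ha : ∀ i, a (i + m) = a i + 1) : Gh a b := by
  have hn : ∀ n : ℕ, a (n * m) = a 0 + n := by
    intro n
    induction n with
    | zero => simp
    | succ n ih =>
      rw [show ((n + 1 : ℕ) : ℤ) * m = n * m + m by push_cast; ring, ha, ih]
      push_cast
      ring
  have hn' : ∀ n : ℕ, a (-(n * m)) = a 0 - n := by
    intro n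
    induction n with
    | zero => simp
    | succ n ih =>
      have h1 := ha (-((n + 1 : ℕ) * m))
      rw [show -(((n + 1 : ℕ) : ℤ) * m) + m = -(n * m) by push_cast; ring, ih] at h1
      push_cast at h1 ⊢
      linarith
  refine ⟨sa, sb, fun M => ?_, fun M => ?_⟩
  · obtain ⟨n, hn0⟩ := exists_nat_gt (M - a 0)
    exact ⟨n * m, by rw [hn]; linarith⟩
  · obtain ⟨n, hn0⟩ := exists_nat_gt (a 0 - M)
    exact ⟨-(n * m), by rw [hn']; linarith⟩

end Pool.Agent.R690.Rob.OS
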